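import Mathlib
import Pool.Agent.Q238.EV.Main

/-!
# MP_cdfd58_co: a graph with eviction number larger than 4/3 times its independence number

There is a connected cubic graph on 14 vertices (the generalized Petersen graph `P(7,2)`) with
independence number 5 and eviction number 7.
-/

namespace Pool.Agent.Results.MP_cdfd58_co.RatioSevenFifths

open Pool.Agent.Q238.EV

theorem result :
    ∃ G : SimpleGraph (Fin 14), G.Connected ∧ (∀ v, (G.neighborSet v).ncard = 3) ∧
      G.indepNum = 5 ∧ evictionNumber G = 7 ∧
      (4 / 3 : ℚ) < (evictionNumber G : ℚ) / (G.indepNum : ℚ) := by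
  refine ⟨P, connected, ?_, indepNum_eq, eviction_eq, ?_⟩
  · have h : ∀ v : Fin 14, (Finset.univ.filter (fun w => P.Adj v w)).card = 3 := by
      decide +kernel
    intro v
    rw [← h v, ← Set.ncard_coe_finset]
    congr 1
    ext w
    simp [SimpleGraph.neighborSet]
  · rw [eviction_eq, indepNum_eq]
    norm_num

end Pool.Agent.Results.MP_cdfd58_co.RatioSevenFifths
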